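import Pool.Agent.H50.ODG.Targets

/-!
# The angles are determined (row UNB)
-/

set_option autoImplicit false

namespace Pool.Agent.H88.ODG

open Pool.Agent.H50.ODG

/-- the cosine is injective on the angles between `0` and `π` -/
theorem cn_inj {a b : ℚ} (ha : 0 < a) (ha1 : a < 1) (hb : 0 < b) (hb1 : b < 1) (h : cn a = cn b) : a = b := by
  have hpi := Real.pi_pos
  have ha' : (0 : ℝ) < a := by exact_mod_cast ha
  have hb' : (0 : ℝ) < b := by exact_mod_cast hb
  have ha1' : (a : ℝ) < 1 := by exact_mod_cast ha1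
  have hb1' : (b : ℝ) < 1 := by exact_mod_cast hb1
  have h1 : (a : ℝ) * Real.pi ∈ Set.Icc 0 Real.pi := ⟨by positivity, by nlinarith⟩
  have h2 : (b : ℝ) * Real.pi ∈ Set.Icc 0 Real.pi := ⟨by positivity, by nlinarith⟩
  have h3 := Real.injOn_cos h1 h2 h
  have h4 : (a : ℝ) = b := mul_right_cancel₀ hpi.ne' h3
  exact_mod_cast h4

/-- the sine is positive -/
theorem sn_pos {a : ℚ} (ha : 0 < a) (ha1 : a < 1) : 0 < sn a := by
  have hpi := Real.pi_pos
  have ha' : (0 : ℝ) < a := by exact_mod_cast ha
  have ha1' : (a : ℝ) < 1 := by exact_mod_cast ha1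
  apply Real.sin_pos_of_pos_of_lt_pi
  · positivity
  · nlinarith

/-- the basic inequality -/
theorem key {u v w : ℚ} (hu : 0 < u) (hv : 0 < v) (hw : 0 < w) (h : u + v + w ≤ 1) : 0 < cn u + cn v * cn w := by
  have hpi := Real.pi_pos
  have hu' : (0 : ℝ) < u := by exact_mod_cast hu
  have hv' : (0 : ℝ) < v := by exact_mod_cast hv
  have hw' : (0 : ℝ) < w := by exact_mod_cast hw
  have h' : (u : ℝ) + v + w ≤ 1 := by exact_mod_cast h
  have h1 : Real.cos (Real.pi - (v + w) * Real.pi) ≤ Real.cos (u * Real.pi) := by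
    apply Real.cos_le_cos_of_nonneg_of_le_pi
    · positivity
    · nlinarith
    · nlinarith
  have h2 : Real.cos (Real.pi - (v + w) * Real.pi) = sn v * sn w - cn v * cn w := by
    rw [Real.cos_pi_sub, add_mul, Real.cos_add]
    simp only [sn, cn]
    ring
  have h3 := sn_pos hv (by linarith)
  have h4 := sn_pos hw (by linarith)
  have h5 := mul_pos h3 h4
  have h6 : Real.cos (u * Real.pi) = cn u := rfl
  rw [h2, h6] at h1
  linarith

theorem pf_UNB : T_UNB := by
  intro u v w u' v' w' hu hv hw hs hu' hv' hw' hs' hcu hcv hcw hcc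
  have k1 := key hu hv hw hs
  have k2 := key hv hu hw (by linarith)
  have k1' := key hu' hv' hw' hs'
  have k2' := key hv' hu' hw' (by linarith)
  have ew : w' = w := cn_inj hw' (by linarith) hw (by linarith) hcw.symm
  have ru := sq_eq_sq_iff_eq_or_eq_neg.1 hcu
  have rv := sq_eq_sq_iff_eq_or_eq_neg.1 hcv
  have main : cn u' = cn u ∧ cn v' = cn v := by
    rw [← hcw] at k1' k2'
    rcases ru with ru | ru <;> rcases rv with rv | rv
    · exact ⟨ru.symm, rv.symm⟩
    · -- `cn u = cn u'`, `cn v = - cn v'`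
      have h1 : cn u * cn v' = 0 := by rw [rv, ← ru] at hcc; linarith
      rcases mul_eq_zero.1 h1 with h2 | h2
      · exfalso
        rw [rv, h2] at k1
        rw [← ru, h2] at k1'
        linarith
      · refine ⟨ru.symm, ?_⟩
        rw [rv, h2, neg_zero]
    · have h1 : cn v * cn u' = 0 := by rw [ru, ← rv] at hcc; linarith
      rcases mul_eq_zero.1 h1 with h2 | h2
      · exfalso
        rw [ru, h2] at k2
        rw [← rv, h2] at k2'
        linarith
      · refine ⟨?_, rv.symm⟩
        rw [ru, h2, neg_zero]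
    · exfalso
      rw [ru, rv] at k1
      linarith
  exact ⟨cn_inj hu' (by linarith) hu (by linarith) main.1, cn_inj hv' (by linarith) hv (by linarith) main.2, ew⟩

end Pool.Agent.H88.ODG
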