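import Pool.Agent.H50.ODG.Targets

/-!
# A mirror through a vertex splits a triangle of mirrors (row MTS)
-/

set_option autoImplicit false

namespace Pool.Agent.H88.ODG

open Pool.Agent.H57.CP Pool.Agent.H39.TO Pool.Agent.H39.OD Pool.Agent.H50.ODG

theorem mkc (x y : V4) : mk x y = mk y x := by
  simp only [mk]; ring

theorem mk_add_l (x y z : V4) : mk (x + y) z = mk x z + mk y z := by
  simp only [mk, Pi.add_apply]; ring

theorem mk_smul_l (c : ℝ) (x z : V4) : mk (c • x) z = c * mk x z := by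
  simp only [mk, Pi.smul_apply, smul_eq_mul]; ring

theorem mk_add_r (x y z : V4) : mk z (x + y) = mk z x + mk z y := by
  simp only [mk, Pi.add_apply]; ring

theorem mk_smul_r (c : ℝ) (x z : V4) : mk z (c • x) = c * mk z x := by
  simp only [mk, Pi.smul_apply, smul_eq_mul]; ring

theorem mk_neg_l (x z : V4) : mk (-x) z = -mk x z := by
  simp only [mk, Pi.neg_apply]; ring

theorem mk_neg_r (x z : V4) : mk z (-x) = -mk z x := by
  simp only [mk, Pi.neg_apply]; ring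

theorem refl_neg (a : V4) : refl (-a) = refl a := by
  apply LinearMap.ext
  intro v
  funext i
  show v i + 2 * mk (-a) v * (-a) i = v i + 2 * mk a v * a i
  rw [mk_neg_l, Pi.neg_apply]; ring

theorem mk_pos (A B : H3) : 0 < mk A.1 B.1 := by
  obtain ⟨a, ha, ha3⟩ := A
  obtain ⟨b, hb, hb3⟩ := B
  show 0 < mk a b
  simp only [mk] at ha hb ⊢
  have h3 : 0 < a 3 * b 3 := mul_pos ha3 hb3
  have hsq : (a 0 * b 0 + a 1 * b 1 + a 2 * b 2) ^ 2 < (a 3 * b 3) ^ 2 := by
    have e1 : a 3 * a 3 = 1 + (a 0 * a 0 + a 1 * a 1 + a 2 * a 2) := by linarith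
    have e2 : b 3 * b 3 = 1 + (b 0 * b 0 + b 1 * b 1 + b 2 * b 2) := by linarith
    have e3 : (a 3 * b 3) ^ 2 = (1 + (a 0 * a 0 + a 1 * a 1 + a 2 * a 2)) *
        (1 + (b 0 * b 0 + b 1 * b 1 + b 2 * b 2)) := by
      rw [← e1, ← e2]; ring
    rw [e3]
    nlinarith [sq_nonneg (a 0 * b 1 - a 1 * b 0), sq_nonneg (a 0 * b 2 - a 2 * b 0),
      sq_nonneg (a 1 * b 2 - a 2 * b 1), mul_self_nonneg (a 0), mul_self_nonneg (a 1), mul_self_nonneg (a 2),
      mul_self_nonneg (b 0), mul_self_nonneg (b 1), mul_self_nonneg (b 2)]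
  have h := abs_lt_of_sq_lt_sq hsq h3.le
  have h' := (abs_lt.1 h).2
  linarith

theorem pf_MTS (hDPT : T_DPT) : T_MTS := by
  intro G x y z P Q R h k N hk2 hkN hcop hxy
  have hN : 3 ≤ N := by omega
  have hN0 : (0 : ℝ) < N := by
    have : 0 < N := by omega
    exact_mod_cast this
  have hkr : (k : ℝ) < N := by exact_mod_cast hkN
  have hk2r : (2 : ℝ) ≤ k := by exact_mod_cast hk2
  obtain ⟨t, ht, hxt, hg, he⟩ := hDPT x y k N h.ux h.uy hN (by omega) hkN hcop hxy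
  have hpi := Real.pi_pos
  -- the angles
  have hs1 : 0 < Real.sin (Real.pi / N) := by
    apply Real.sin_pos_of_pos_of_lt_pi
    · positivity
    · rw [div_lt_iff₀ hN0]
      have : (3 : ℝ) ≤ N := by exact_mod_cast hN
      nlinarith
  have hsk : 0 < Real.sin (k * Real.pi / N) := by
    apply Real.sin_pos_of_pos_of_lt_pi
    · apply div_pos _ hN0
      nlinarith
    · rw [div_lt_iff₀ hN0]
      nlinarith
  have hsk1 : 0 < Real.sin (((k : ℝ) - 1) * Real.pi / N) := by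
    apply Real.sin_pos_of_pos_of_lt_pi
    · apply div_pos _ hN0
      nlinarith
    · rw [div_lt_iff₀ hN0]
      nlinarith
  have hadd : Real.sin (k * Real.pi / N) = Real.sin (((k : ℝ) - 1) * Real.pi / N) * Real.cos (Real.pi / N) +
      Real.cos (((k : ℝ) - 1) * Real.pi / N) * Real.sin (Real.pi / N) := by
    rw [← Real.sin_add]; congr 1; ring
  have hpair : ∀ v : V4, Real.sin (Real.pi / N) * mk v y = Real.sin (k * Real.pi / N) * mk v t +
      Real.sin (((k : ℝ) - 1) * Real.pi / N) * mk v x := by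
    intro v
    have h1 := congrArg (mk v) he
    rw [mk_smul_r, mk_add_r, mk_smul_r, mk_smul_r] at h1
    exact h1
  -- the products
  have hty : mk (-t) y = Real.cos (((k : ℝ) - 1) * Real.pi / N) := by
    have h1 := hpair t
    rw [ht, mkc t x, hxt, hadd] at h1
    rw [mk_neg_l]
    have h2 : Real.sin (Real.pi / N) * (-mk t y - Real.cos (((k : ℝ) - 1) * Real.pi / N)) = 0 := by linarith
    rcases mul_eq_zero.1 h2 with h3 | h3
    · exact absurd h3 hs1.ne'
    · linarith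
  have hQt : mk Q.1 t < 0 := by
    have h1 := hpair Q.1
    rw [h.Qx, mul_zero, add_zero] at h1
    have h2 : Real.sin (Real.pi / N) * mk Q.1 y < 0 := mul_neg_of_pos_of_neg hs1 h.Qy
    by_contra hc
    push Not at hc
    have := mul_nonneg hsk.le hc
    linarith
  have hRt : 0 < mk R.1 t := by
    have h1 := hpair R.1
    rw [h.Ry, mul_zero] at h1
    have h2 : Real.sin (((k : ℝ) - 1) * Real.pi / N) * mk R.1 x < 0 := mul_neg_of_pos_of_neg hsk1 h.Rx
    by_contra hc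
    push Not at hc
    have := mul_nonpos_of_nonneg_of_nonpos hsk.le hc
    linarith
  have hPt : mk P.1 t = 0 := by
    have h1 := hpair P.1
    rw [h.Py, h.Px, mul_zero, mul_zero, add_zero] at h1
    rcases mul_eq_zero.1 h1.symm with h3 | h3
    · exact absurd h3 hsk.ne'
    · exact h3
  -- the foot
  have hgt : refl t ∈ G := by
    refine (Submonoid.closure_le.2 ?_) hg
    intro a ha
    rcases ha with rfl | ha
    · exact h.gx
    · rw [Set.mem_singleton_iff] at ha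
      rw [ha]; exact h.gy
  have hQR := mk_pos Q R
  have hr0 : 0 < -mk Q.1 t := by linarith
  have hww : 0 < mk (mk R.1 t • Q.1 + (-mk Q.1 t) • R.1) (mk R.1 t • Q.1 + (-mk Q.1 t) • R.1) := by
    simp only [mk_add_l, mk_add_r, mk_smul_l, mk_smul_r]
    rw [Q.2.1, R.2.1, mkc R.1 Q.1]
    have h1 := mul_pos hRt hRt
    have h2 := mul_pos hr0 hr0
    have h3 := mul_pos (mul_pos hRt hr0) hQR
    nlinarith
  generalize hw : mk (mk R.1 t • Q.1 + (-mk Q.1 t) • R.1) (mk R.1 t • Q.1 + (-mk Q.1 t) • R.1) = W at hww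
  have hsW : 0 < Real.sqrt W := Real.sqrt_pos.2 hww
  have hsWW : Real.sqrt W * Real.sqrt W = W := Real.mul_self_sqrt hww.le
  have hs : 0 < mk R.1 t / Real.sqrt W := div_pos hRt hsW
  have hr : 0 < -mk Q.1 t / Real.sqrt W := div_pos hr0 hsW
  have hvec : (mk R.1 t / Real.sqrt W) • Q.1 + (-mk Q.1 t / Real.sqrt W) • R.1 =
      (Real.sqrt W)⁻¹ • (mk R.1 t • Q.1 + (-mk Q.1 t) • R.1) := by
    rw [smul_add, smul_smul, smul_smul]
    congr 2 <;> (rw [div_eq_mul_inv]; ring)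
  have hS1 : mk ((mk R.1 t / Real.sqrt W) • Q.1 + (-mk Q.1 t / Real.sqrt W) • R.1)
      ((mk R.1 t / Real.sqrt W) • Q.1 + (-mk Q.1 t / Real.sqrt W) • R.1) = 1 := by
    rw [hvec, mk_smul_l, mk_smul_r, hw, ← mul_assoc, ← mul_inv, hsWW]
    exact inv_mul_cancel₀ hww.ne'
  have hS3 : 0 < ((mk R.1 t / Real.sqrt W) • Q.1 + (-mk Q.1 t / Real.sqrt W) • R.1) 3 := by
    rw [Pi.add_apply, Pi.smul_apply, Pi.smul_apply, smul_eq_mul, smul_eq_mul]
    exact add_pos (mul_pos hs Q.2.2) (mul_pos hr R.2.2)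
  obtain ⟨S, hS⟩ : ∃ S : H3, S.1 = (mk R.1 t / Real.sqrt W) • Q.1 + (-mk Q.1 t / Real.sqrt W) • R.1 :=
    ⟨⟨_, hS1, hS3⟩, rfl⟩
  have hSm : ∀ v, mk S.1 v = mk R.1 t / Real.sqrt W * mk Q.1 v + -mk Q.1 t / Real.sqrt W * mk R.1 v := by
    intro v; rw [hS, mk_add_l, mk_smul_l, mk_smul_l]
  have hSt : mk S.1 t = 0 := by rw [hSm]; ring
  have hSz : mk S.1 z = 0 := by rw [hSm, h.Qz, h.Rz]; ring
  have hSx : mk S.1 x < 0 := by
    rw [hSm, h.Qx, mul_zero, zero_add]
    exact mul_neg_of_pos_of_neg hr h.Rx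
  have hSy : mk S.1 y < 0 := by
    rw [hSm, h.Ry, mul_zero, add_zero]
    exact mul_neg_of_pos_of_neg hs h.Qy
  refine ⟨t, S, mk R.1 t / Real.sqrt W, -mk Q.1 t / Real.sqrt W, hs, hr, hS, hxt, hty, hpair z, hQt, hRt, ?_, ?_⟩
  · exact ⟨h.ux, ht, h.uz, h.gx, hgt, h.gz, h.Px, hPt, h.Pz, h.Qx, h.Qz, hQt, hSt, hSz, hSx, by
      rintro ⟨O, hOx, hOt, hOz⟩
      refine h.ns ⟨O, hOx, ?_, hOz⟩
      have h1 := hpair O.1
      rw [hOx, hOt, mul_zero, mul_zero, add_zero] at h1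
      rcases mul_eq_zero.1 h1 with h3 | h3
      · exact absurd h3 hs1.ne'
      · exact h3⟩
  · refine ⟨?_, h.uy, h.uz, ?_, h.gy, h.gz, ?_, h.Py, h.Pz, ?_, hSz, hSy, h.Ry, h.Rz, ?_, ?_⟩
    · rw [mk_neg_l, mk_neg_r, neg_neg, ht]
    · rw [refl_neg]; exact hgt
    · rw [mk_neg_r, hPt, neg_zero]
    · rw [mk_neg_r, hSt, neg_zero]
    · rw [mk_neg_r]; linarith
    · rintro ⟨O, hOt, hOy, hOz⟩
      refine h.ns ⟨O, ?_, hOy, hOz⟩
      rw [mk_neg_r, neg_eq_zero] at hOt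
      have h1 := hpair O.1
      rw [hOy, hOt, mul_zero, mul_zero, zero_add] at h1
      rcases mul_eq_zero.1 h1.symm with h3 | h3
      · exact absurd h3 hsk1.ne'
      · exact h3

end Pool.Agent.H88.ODG
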